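import Pool.Agent.Helper10.QRH.StA

/-! QRH-A0: polynomial growth of the Riemann zeta function in the half plane `Re s ≥ 1/2`. -/

set_option autoImplicit false
open Filter Topology Complex

namespace Pool.Agent.Helper69.QRH

open Pool.Agent.Helper10.QRH

/-- `(s-1) ζ(s)` as an entire function -/
noncomputable def EZ : ℂ → ℂ := Function.update (fun s : ℂ => (s - 1) * riemannZeta s) 1 1

lemma EZ_differentiable : Differentiable ℂ EZ := by
  unfold EZ
  rw [← differentiableOn_univ,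
    ← differentiableOn_compl_singleton_and_continuousAt_iff (c := 1) Filter.univ_mem]
  refine ⟨DifferentiableOn.congr (f := fun s ↦ (s - 1) * riemannZeta s)
    (fun s hs ↦ DifferentiableAt.differentiableWithinAt ?_)
    fun _ hs ↦ Function.update_of_ne (Set.mem_sdiff_singleton.mp hs).2 .., ?_⟩
  · have hs' : s ≠ 1 := (Set.mem_sdiff_singleton.mp hs).2
    exact (differentiableAt_id.sub_const 1).mul (differentiableAt_riemannZeta hs')
  · refine continuousWithinAt_compl_self.mp ?_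
    simpa using riemannZeta_residue_one

lemma EZ_eq {s : ℂ} (hs : s ≠ 1) : EZ s = (s - 1) * riemannZeta s := by
  unfold EZ
  rw [Function.update_of_ne hs]

lemma EZ_one : EZ 1 = 1 := by
  unfold EZ
  rw [Function.update_self]

lemma hasDerivAt_real_cpow {x : ℝ} (hx : 0 < x) (r : ℂ) :
    HasDerivAt (fun y : ℝ => (y : ℂ) ^ r) (r * (x : ℂ) ^ (r - 1)) x := by
  have h1 : HasDerivAt (fun z : ℂ => z ^ r) (r * (x : ℂ) ^ (r - 1) * 1) (x : ℂ) :=
    (hasDerivAt_id (x : ℂ)).cpow_const (Complex.ofReal_mem_slitPlane.2 hx)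
  rw [mul_one] at h1
  exact h1.comp_ofReal

lemma cpow_sub_le {a x : ℝ} (ha : 1 ≤ a) (hx : x ∈ Set.Icc a (a + 1)) {s : ℂ} (hs : 0 < s.re) :
    ‖(a : ℂ) ^ (-s) - (x : ℂ) ^ (-s)‖ ≤ ‖s‖ * a ^ (-s.re - 1) := by
  have h := Convex.norm_image_sub_le_of_norm_hasDerivWithin_le (s := Set.Icc a (a + 1))
    (f := fun y : ℝ => (y : ℂ) ^ (-s)) (f' := fun y : ℝ => -s * (y : ℂ) ^ (-s - 1))
    (C := ‖s‖ * a ^ (-s.re - 1)) (x := x) (y := a) (fun y hy => by
      have hy0 : 0 < y := by linarith [hy.1]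
      exact (hasDerivAt_real_cpow hy0 (-s)).hasDerivWithinAt) (fun y hy => by
      have hy0 : 0 < y := by linarith [hy.1]
      rw [norm_mul, norm_neg, Complex.norm_cpow_eq_rpow_re_of_pos hy0]
      refine mul_le_mul_of_nonneg_left ?_ (norm_nonneg _)
      have h1 : (-s - 1).re = -s.re - 1 := by simp
      rw [h1]
      exact Real.rpow_le_rpow_of_nonpos (by linarith) hy.1 (by linarith)) (convex_Icc _ _) hx
      ⟨le_rfl, by linarith⟩
  refine h.trans ?_
  have h2 : ‖a - x‖ ≤ 1 := by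
    rw [Real.norm_eq_abs, abs_le]
    constructor <;> linarith [hx.1, hx.2]
  have h3 : 0 ≤ ‖s‖ * a ^ (-s.re - 1) := mul_nonneg (norm_nonneg _) (Real.rpow_nonneg (by linarith) _)
  calc _ ≤ ‖s‖ * a ^ (-s.re - 1) * 1 := mul_le_mul_of_nonneg_left h2 h3
    _ = _ := mul_one _

/-- the terms of the series -/
noncomputable def TT (n : ℕ) (s : ℂ) : ℂ :=
  (s - 1) * ((n : ℂ) + 1) ^ (-s) + (((n : ℂ) + 2) ^ (1 - s) - ((n : ℂ) + 1) ^ (1 - s))

lemma TT_bound (n : ℕ) {s : ℂ} (hs : 0 < s.re) :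
    ‖TT n s‖ ≤ ‖s - 1‖ * ‖s‖ * ((n : ℝ) + 1) ^ (-s.re - 1) := by
  set a : ℝ := (n : ℝ) + 1 with ha
  have ha1 : 1 ≤ a := by
    rw [ha]
    linarith [(n.cast_nonneg : (0 : ℝ) ≤ n)]
  have h := Convex.norm_image_sub_le_of_norm_hasDerivWithin_le (s := Set.Icc a (a + 1))
    (f := fun y : ℝ => (s - 1) * (a : ℂ) ^ (-s) * (y : ℂ) + (y : ℂ) ^ (1 - s))
    (f' := fun y : ℝ => (s - 1) * ((a : ℂ) ^ (-s) - (y : ℂ) ^ (-s)))
    (C := ‖s - 1‖ * (‖s‖ * a ^ (-s.re - 1))) (x := a) (y := a + 1) (fun y hy => by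
      have hy0 : 0 < y := by linarith [hy.1]
      have h1 := hasDerivAt_real_cpow hy0 (1 - s)
      have h2 : HasDerivAt (fun y : ℝ => (s - 1) * (a : ℂ) ^ (-s) * (y : ℂ))
          ((s - 1) * (a : ℂ) ^ (-s) * 1) y :=
        (HasDerivAt.ofReal_comp (hasDerivAt_id y)).const_mul _
      have h3 := (h2.add h1).hasDerivWithinAt (s := Set.Icc a (a + 1))
      have h4 : (1 : ℂ) - s - 1 = -s := by ring
      have h5 : (s - 1) * ((a : ℂ) ^ (-s) - (y : ℂ) ^ (-s)) =
          (s - 1) * (a : ℂ) ^ (-s) * 1 + (1 - s) * (y : ℂ) ^ (1 - s - 1) := by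
        rw [h4]; ring
      rw [h5]
      exact h3) (fun y hy => by
      rw [norm_mul]
      exact mul_le_mul_of_nonneg_left (cpow_sub_le ha1 hy hs) (norm_nonneg _)) (convex_Icc _ _)
      ⟨le_rfl, by linarith⟩ ⟨by linarith, le_rfl⟩
  have h5 : TT n s = ((s - 1) * (a : ℂ) ^ (-s) * ((a + 1 : ℝ) : ℂ) + ((a + 1 : ℝ) : ℂ) ^ (1 - s)) -
      ((s - 1) * (a : ℂ) ^ (-s) * (a : ℂ) + (a : ℂ) ^ (1 - s)) := by
    unfold TT
    have h6 : ((a : ℝ) : ℂ) = (n : ℂ) + 1 := by
      rw [ha]; push_cast; ring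
    have h7 : ((a + 1 : ℝ) : ℂ) = (n : ℂ) + 2 := by
      rw [ha]; push_cast; ring
    rw [h6, h7]
    ring
  rw [h5]
  refine h.trans (le_of_eq ?_)
  have h8 : ‖(a + 1 : ℝ) - a‖ = 1 := by
    rw [add_sub_cancel_left]; simp
  rw [h8, mul_one, mul_assoc]

lemma TT_differentiable (n : ℕ) : Differentiable ℂ (TT n) := by
  have h1 : ((n : ℂ) + 1) ≠ 0 := by exact_mod_cast Nat.succ_ne_zero n
  have h2 : ((n : ℂ) + 2) ≠ 0 := by
    have : ((n + 2 : ℕ) : ℂ) ≠ 0 := by exact_mod_cast (by omega : n + 2 ≠ 0)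
    push_cast at this
    exact this
  unfold TT
  refine Differentiable.add ?_ (Differentiable.sub ?_ ?_)
  · exact (differentiable_id.sub_const 1).mul (differentiable_id.neg.const_cpow (Or.inl h1))
  · exact ((differentiable_const 1).sub differentiable_id).const_cpow (Or.inl h2)
  · exact ((differentiable_const 1).sub differentiable_id).const_cpow (Or.inl h1)

lemma summable_rpow_aux {r : ℝ} (hr : r < -1) : Summable (fun n : ℕ => ((n : ℝ) + 1) ^ r) := by
  have h1 : Summable (fun n : ℕ => (n : ℝ) ^ r) := Real.summable_nat_rpow.2 hr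
  have h2 := (summable_nat_add_iff 1).2 h1
  simpa using h2

lemma tsum_TT {s : ℂ} (hs : 1 < s.re) : ∑' n : ℕ, TT n s = (s - 1) * riemannZeta s - 1 := by
  have hs0 : 0 < s.re := by linarith
  have hS : Summable (fun n : ℕ => TT n s) := by
    refine Summable.of_norm_bounded
      ((summable_rpow_aux (r := -s.re - 1) (by linarith)).mul_left (‖s - 1‖ * ‖s‖)) fun n => ?_
    exact TT_bound n hs0
  have hZ : HasSum (fun n : ℕ => 1 / ((n : ℂ) + 1) ^ s) (riemannZeta s) := by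
    rw [zeta_eq_tsum_one_div_nat_add_one_cpow hs]
    refine Summable.hasSum ?_
    have h1 := (summable_nat_add_iff 1).2 (Complex.summable_one_div_nat_cpow.2 hs)
    simpa using h1
  have hZ' := hZ.mul_left (s - 1)
  have ht1 := hS.hasSum.tendsto_sum_nat
  have ht2 := hZ'.tendsto_sum_nat
  have ht3 : Tendsto (fun N : ℕ => ((N : ℂ) + 1) ^ (1 - s) - 1) atTop (𝓝 (0 - 1)) := by
    refine Tendsto.sub_const ?_ 1
    rw [tendsto_zero_iff_norm_tendsto_zero]
    have h1 : ∀ N : ℕ, ‖((N : ℂ) + 1) ^ (1 - s)‖ = ((N : ℝ) + 1) ^ (-(s.re - 1)) := by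
      intro N
      have h2 : ((N : ℂ) + 1) = (((N : ℝ) + 1 : ℝ) : ℂ) := by push_cast; ring
      rw [h2, Complex.norm_cpow_eq_rpow_re_of_pos (by positivity)]
      congr 1
      simp
    simp_rw [h1]
    exact (tendsto_rpow_neg_atTop (by linarith)).comp
      (tendsto_atTop_add_const_right _ _ tendsto_natCast_atTop_atTop)
  have hsum : ∀ N : ℕ, ∑ n ∈ Finset.range N, TT n s =
      (∑ n ∈ Finset.range N, (s - 1) * (1 / ((n : ℂ) + 1) ^ s)) + (((N : ℂ) + 1) ^ (1 - s) - 1) := by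
    intro N
    induction N with
    | zero => simp
    | succ N ih =>
      rw [Finset.sum_range_succ, Finset.sum_range_succ, ih]
      unfold TT
      rw [Complex.cpow_neg, one_div]
      push_cast
      have h1 : (N : ℂ) + 1 + 1 = N + 2 := by ring
      rw [h1]
      ring
  have ht4 := ht2.add ht3
  have ht5 : Tendsto (fun N : ℕ => ∑ n ∈ Finset.range N, TT n s) atTop
      (𝓝 ((s - 1) * riemannZeta s + (0 - 1))) := by
    refine ht4.congr fun N => ?_
    rw [hsum]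
  have := tendsto_nhds_unique ht1 ht5
  rw [this]
  ring

theorem EZ_eq_tsum {s : ℂ} (hs : 1 / 4 < s.re) : EZ s = ∑' n : ℕ, TT n s + 1 := by
  set R : ℝ := ‖s‖ + 10 with hR
  set U : Set ℂ := {z | 1 / 4 < z.re} ∩ Metric.ball 0 R with hU
  have hUo : IsOpen U := (isOpen_lt continuous_const Complex.continuous_re).inter Metric.isOpen_ball
  have hUc : Convex ℝ U := (convex_halfSpace_re_gt _).inter (convex_ball _ _)
  have hF : DifferentiableOn ℂ (fun z => ∑' n : ℕ, TT n z) U := by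
    refine differentiableOn_tsum_of_summable_norm
      (u := fun n : ℕ => (R + 1) * R * ((n : ℝ) + 1) ^ (-(1 / 4 : ℝ) - 1)) ?_
      (fun n => (TT_differentiable n).differentiableOn) hUo ?_
    · exact (summable_rpow_aux (by norm_num)).mul_left _
    · intro n z hz
      have hz1 : 1 / 4 < z.re := hz.1
      have hz2 : ‖z‖ < R := by simpa using hz.2
      refine (TT_bound n (by linarith)).trans ?_
      have h1 : ‖z - 1‖ ≤ R + 1 := (norm_sub_le _ _).trans (by rw [norm_one]; linarith)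
      have h2 : ((n : ℝ) + 1) ^ (-z.re - 1) ≤ ((n : ℝ) + 1) ^ (-(1 / 4 : ℝ) - 1) :=
        Real.rpow_le_rpow_of_exponent_le (by linarith [(n.cast_nonneg : (0 : ℝ) ≤ n)]) (by linarith)
      have h3 : 0 ≤ R := (norm_nonneg z).trans hz2.le
      gcongr
  have hA : AnalyticOnNhd ℂ (fun z => ∑' n : ℕ, TT n z + 1) U :=
    (hF.add_const 1).analyticOnNhd hUo
  have hB : AnalyticOnNhd ℂ EZ U := EZ_differentiable.differentiableOn.analyticOnNhd hUo
  have h2 : (2 : ℂ) ∈ U := by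
    refine ⟨by norm_num, ?_⟩
    simp only [Metric.mem_ball, dist_zero_right, Complex.norm_ofNat]
    rw [hR]
    linarith [norm_nonneg s]
  have hev : EZ =ᶠ[𝓝 (2 : ℂ)] fun z => ∑' n : ℕ, TT n z + 1 := by
    have h3 : ∀ᶠ z in 𝓝 (2 : ℂ), 1 < z.re := by
      have : {z : ℂ | 1 < z.re} ∈ 𝓝 (2 : ℂ) :=
        (isOpen_lt continuous_const Complex.continuous_re).mem_nhds (by norm_num)
      exact this
    filter_upwards [h3] with z hz
    have hz1 : z ≠ 1 := by
      rintro rfl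
      simp at hz
    rw [EZ_eq hz1, tsum_TT hz]
    ring
  have h := hB.eqOn_of_preconnected_of_eventuallyEq hA hUc.isPreconnected h2 hev
  refine h ⟨hs, ?_⟩
  simp only [Metric.mem_ball, dist_zero_right]
  rw [hR]
  linarith

theorem EZ_bound : ∃ C : ℝ, 0 < C ∧ ∀ s : ℂ, 1/2 ≤ s.re → ‖EZ s‖ ≤ C * (1 + ‖s‖) ^ 2 := by
  set K : ℝ := ∑' n : ℕ, ((n : ℝ) + 1) ^ (-(3 / 2 : ℝ)) with hK
  have hK0 : 0 ≤ K := tsum_nonneg fun n => Real.rpow_nonneg (by positivity) _
  refine ⟨K + 1, by linarith, fun s hs => ?_⟩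
  rw [EZ_eq_tsum (by linarith)]
  have h1 : ‖∑' n : ℕ, TT n s‖ ≤ ‖s - 1‖ * ‖s‖ * K := by
    rw [hK, ← tsum_mul_left]
    refine tsum_of_norm_bounded ((summable_rpow_aux (by norm_num)).mul_left _).hasSum fun n => ?_
    refine (TT_bound n (by linarith)).trans ?_
    refine mul_le_mul_of_nonneg_left ?_ (by positivity)
    exact Real.rpow_le_rpow_of_exponent_le (by linarith [(n.cast_nonneg : (0 : ℝ) ≤ n)]) (by linarith)
  have h2 : ‖s - 1‖ ≤ 1 + ‖s‖ := (norm_sub_le _ _).trans (by rw [norm_one]; linarith)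
  have h3 := norm_nonneg s
  calc ‖∑' n : ℕ, TT n s + 1‖ ≤ ‖∑' n : ℕ, TT n s‖ + ‖(1 : ℂ)‖ := norm_add_le _ _
    _ ≤ ‖s - 1‖ * ‖s‖ * K + 1 := by
      rw [norm_one]
      linarith
    _ ≤ (1 + ‖s‖) * (1 + ‖s‖) * K + (1 + ‖s‖) ^ 2 := by
      have h4 : ‖s - 1‖ * ‖s‖ ≤ (1 + ‖s‖) * (1 + ‖s‖) :=
        mul_le_mul h2 (by linarith) h3 (by linarith)
      have h5 := mul_le_mul_of_nonneg_right h4 hK0
      nlinarith
    _ = (K + 1) * (1 + ‖s‖) ^ 2 := by ring

theorem zetaGrowth : ZetaGrowth := by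
  obtain ⟨C, hC0, hC⟩ := EZ_bound
  refine ⟨C, fun s h1 _ => ?_⟩
  by_cases hs : s = 1
  · rw [hs]
    simp only [sub_self, zero_mul, norm_zero]
    positivity
  · rw [← EZ_eq hs]
    exact hC s h1

end Pool.Agent.Helper69.QRH
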