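import Pool.Agent.Helper10.QRH.StA

/-! QRH-A1: dividing out finitely many zeros of an entire function. -/

set_option autoImplicit false
open Filter Topology Complex

namespace Pool.Agent.Helper69.QRH

open Pool.Agent.Helper10.QRH

lemma differentiable_dslope {F : ℂ → ℂ} (hF : Differentiable ℂ F) (c : ℂ) :
    Differentiable ℂ (dslope F c) := by
  rw [← differentiableOn_univ] at hF ⊢
  exact (Complex.differentiableOn_dslope Filter.univ_mem).2 hF

lemma differentiable_iterate_dslope {F : ℂ → ℂ} (hF : Differentiable ℂ F) (c : ℂ) (n : ℕ) :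
    Differentiable ℂ ((Function.swap dslope c)^[n] F) := by
  induction n with
  | zero => exact hF
  | succ n ih =>
    rw [Function.iterate_succ_apply']
    exact differentiable_dslope ih c

/-- an entire function that is not identically zero, at one point -/
lemma exists_factor {F : ℂ → ℂ} (hF : Differentiable ℂ F) (hne : ∃ z, F z ≠ 0) (c : ℂ) :
    ∃ (n : ℕ) (g : ℂ → ℂ), Differentiable ℂ g ∧ g c ≠ 0 ∧ ∀ z, F z = (z - c) ^ n * g z := by
  have hFa : AnalyticOnNhd ℂ F Set.univ := hF.differentiableOn.analyticOnNhd isOpen_univ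
  obtain ⟨p, hp⟩ := hFa c (Set.mem_univ c)
  have hp0 : p ≠ 0 := by
    intro h
    obtain ⟨z, hz⟩ := hne
    have h1 : ∀ᶠ z in 𝓝 c, F z = 0 := hp.locally_zero_iff.2 h
    exact hz (hFa.eqOn_zero_of_preconnected_of_eventuallyEq_zero isPreconnected_univ
      (Set.mem_univ c) h1 (Set.mem_univ z))
  refine ⟨p.order, (Function.swap dslope c)^[p.order] F,
    differentiable_iterate_dslope hF c _, hp.iterate_dslope_fslope_ne_zero hp0, ?_⟩
  intro z
  have h2 := hp.eq_pow_order_mul_iterate_dslope z
  simpa using h2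

theorem factor_aux (U : Set ℂ) (S : Finset ℂ) : ∀ (F : ℂ → ℂ), Differentiable ℂ F →
    (∃ z ∈ U, F z ≠ 0) → {z : ℂ | z ∈ U ∧ F z = 0} = ↑S →
    ∃ (M : Multiset ℂ) (Z : ℂ → ℂ), Differentiable ℂ Z ∧ (∀ z ∈ U, Z z ≠ 0) ∧
      (∀ ρ ∈ M, ρ ∈ U ∧ F ρ = 0) ∧ ∀ z, F z = (M.map (fun ρ => z - ρ)).prod * Z z := by
  classical
  induction S using Finset.induction_on with
  | empty =>
    intro F hF hne hS
    refine ⟨0, F, hF, fun z hz h0 => ?_, fun ρ hρ => by simp at hρ, fun z => by simp⟩
    have : z ∈ {z : ℂ | z ∈ U ∧ F z = 0} := ⟨hz, h0⟩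
    rw [hS] at this
    simp at this
  | insert a S haS ih =>
    intro F hF hne hS
    have ha : a ∈ U ∧ F a = 0 := by
      have : a ∈ {z : ℂ | z ∈ U ∧ F z = 0} := by rw [hS]; simp
      exact this
    obtain ⟨z0, hz0, hz0'⟩ := hne
    obtain ⟨n, g, hg, hga, hFg⟩ := exists_factor hF ⟨z0, hz0'⟩ a
    have hn : n ≠ 0 := by
      rintro rfl
      have h1 := hFg a
      rw [ha.2, pow_zero, one_mul] at h1
      exact hga h1.symm
    obtain ⟨M, Z, hZ, hZ0, hM, hgM⟩ := ih g hg ⟨a, ha.1, hga⟩ (by
      ext z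
      constructor
      · rintro ⟨hz, hgz⟩
        have h1 : z ∈ {z : ℂ | z ∈ U ∧ F z = 0} := ⟨hz, by rw [hFg, hgz, mul_zero]⟩
        rw [hS, Finset.coe_insert] at h1
        rcases h1 with h1 | h1
        · rw [h1] at hgz
          exact absurd hgz hga
        · exact h1
      · intro hz
        have h1 : z ∈ {z : ℂ | z ∈ U ∧ F z = 0} := by
          rw [hS, Finset.coe_insert]
          exact Or.inr hz
        refine ⟨h1.1, ?_⟩
        have hza : z - a ≠ 0 := by
          intro h
          rw [sub_eq_zero] at h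
          rw [h] at hz
          exact haS hz
        have h2 := h1.2
        rw [hFg] at h2
        exact (mul_eq_zero.1 h2).resolve_left (pow_ne_zero _ hza))
    refine ⟨Multiset.replicate n a + M, Z, hZ, hZ0, ?_, ?_⟩
    · intro ρ hρ
      rw [Multiset.mem_add] at hρ
      rcases hρ with hρ | hρ
      · rw [Multiset.eq_of_mem_replicate hρ]
        exact ha
      · exact ⟨(hM ρ hρ).1, by rw [hFg, (hM ρ hρ).2, mul_zero]⟩
    · intro z
      rw [Multiset.map_add, Multiset.prod_add, Multiset.map_replicate, Multiset.prod_replicate,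
        hFg, hgM, mul_assoc]

theorem factorFinite : FactorFinite := by
  intro F hF U _ _ hne hfin
  exact factor_aux U hfin.toFinset F hF hne (by simp)

end Pool.Agent.Helper69.QRH
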