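import Pool.Agent.Helper69.QRH.A0
import Pool.Agent.Helper69.QRH.A1
import Pool.Agent.Helper55.MZ.Local

/-! QRH-A2: the logarithmic derivative of zeta without the poles at finitely many exceptional
zeros, and its logarithmic bound. -/

set_option autoImplicit false
open Filter Topology Complex Metric

namespace Pool.Agent.Helper69.QRH

open Pool.Agent.Helper10.QRH

lemma zeta_two_line {s : ℂ} (hs : s.re = 2) : 1 / 3 ≤ ‖riemannZeta s‖ := by
  have hs1 : 1 < s.re := by rw [hs]; norm_num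
  have hsum : Summable (fun n : ℕ => 1 / ((n : ℂ) + 1) ^ s) := by
    have h1 := (summable_nat_add_iff 1).2 (Complex.summable_one_div_nat_cpow.2 hs1)
    simpa using h1
  have h1 : riemannZeta s = 1 + ∑' n : ℕ, 1 / (((n + 1 : ℕ) : ℂ) + 1) ^ s := by
    rw [zeta_eq_tsum_one_div_nat_add_one_cpow hs1, hsum.tsum_eq_zero_add]
    simp
  have hpi : HasSum (fun n : ℕ => 1 / ((((n + 2 : ℕ)) : ℝ)) ^ 2) (Real.pi ^ 2 / 6 - 1) := by
    have h2 := (hasSum_nat_add_iff' (f := fun n : ℕ => 1 / (n : ℝ) ^ 2) 2).2 hasSum_zeta_two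
    simpa [Finset.sum_range_succ] using h2
  have h3 : ‖∑' n : ℕ, 1 / (((n + 1 : ℕ) : ℂ) + 1) ^ s‖ ≤ Real.pi ^ 2 / 6 - 1 := by
    refine tsum_of_norm_bounded hpi fun n => ?_
    have h4 : (((n + 1 : ℕ) : ℂ) + 1) = (((n + 2 : ℕ) : ℝ) : ℂ) := by push_cast; ring
    rw [h4, norm_div, norm_one, Complex.norm_cpow_eq_rpow_re_of_pos (by positivity), hs]
    norm_num
  have h5 : Real.pi ^ 2 ≤ 10 := by
    have := Real.pi_lt_d2
    have := Real.pi_pos
    nlinarith
  have h6 : ‖(1 : ℂ)‖ - ‖∑' n : ℕ, 1 / (((n + 1 : ℕ) : ℂ) + 1) ^ s‖ ≤ ‖riemannZeta s‖ := by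
    rw [h1]
    have := norm_sub_norm_le (1 : ℂ) (-(∑' n : ℕ, 1 / (((n + 1 : ℕ) : ℂ) + 1) ^ s))
    rwa [norm_neg, sub_neg_eq_add] at this
  rw [norm_one] at h6
  linarith

/-- the polynomial with roots `M` -/
noncomputable def Qp (M : Multiset ℂ) (z : ℂ) : ℂ := (M.map (fun ρ => z - ρ)).prod

lemma Qp_zero (z : ℂ) : Qp 0 z = 1 := by simp [Qp]

lemma Qp_cons (a : ℂ) (M : Multiset ℂ) (z : ℂ) : Qp (a ::ₘ M) z = (z - a) * Qp M z := by
  simp [Qp]

lemma Qp_lower (M : Multiset ℂ) (z : ℂ) (h : ∀ ρ ∈ M, 1 ≤ ‖z - ρ‖) : 1 ≤ ‖Qp M z‖ := by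
  induction M using Multiset.induction_on with
  | empty => simp [Qp]
  | cons a M ih =>
    rw [Qp_cons, norm_mul]
    have h1 := h a (Multiset.mem_cons_self a M)
    have h2 := ih fun ρ hρ => h ρ (Multiset.mem_cons_of_mem hρ)
    nlinarith

lemma Qp_upper (M : Multiset ℂ) (z : ℂ) (X : ℝ) (hX : 0 ≤ X) (h : ∀ ρ ∈ M, ‖z - ρ‖ ≤ X) :
    ‖Qp M z‖ ≤ X ^ Multiset.card M := by
  induction M using Multiset.induction_on with
  | empty => simp [Qp]
  | cons a M ih =>
    rw [Qp_cons, norm_mul, Multiset.card_cons, pow_succ, mul_comm]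
    have h1 := h a (Multiset.mem_cons_self a M)
    have h2 := ih fun ρ hρ => h ρ (Multiset.mem_cons_of_mem hρ)
    exact mul_le_mul h2 h1 (norm_nonneg _) (pow_nonneg hX _)

lemma exists_root_bound (M : Multiset ℂ) : ∃ B : ℝ, 0 ≤ B ∧ ∀ ρ ∈ M, ‖ρ‖ ≤ B := by
  induction M using Multiset.induction_on with
  | empty => exact ⟨0, le_rfl, by simp⟩
  | cons a M ih =>
    obtain ⟨B, hB, h⟩ := ih
    refine ⟨max B ‖a‖, le_max_of_le_left hB, fun ρ hρ => ?_⟩
    rcases Multiset.mem_cons.1 hρ with rfl | h1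
    · exact le_max_right _ _
    · exact (h ρ h1).trans (le_max_left _ _)

lemma Qp_differentiable (M : Multiset ℂ) : Differentiable ℂ (Qp M) := by
  induction M using Multiset.induction_on with
  | empty =>
    have : Qp 0 = fun _ => 1 := funext Qp_zero
    rw [this]
    exact differentiable_const _
  | cons a M ih =>
    have : Qp (a ::ₘ M) = fun z => (z - a) * Qp M z := funext (Qp_cons a M)
    rw [this]
    exact (differentiable_id.sub_const a).mul ih

lemma Qp_ne_zero (M : Multiset ℂ) (z : ℂ) (h : ∀ ρ ∈ M, z ≠ ρ) : Qp M z ≠ 0 := by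
  induction M using Multiset.induction_on with
  | empty => simp [Qp]
  | cons a M ih =>
    rw [Qp_cons]
    exact mul_ne_zero (sub_ne_zero.2 (h a (Multiset.mem_cons_self a M)))
      (ih fun ρ hρ => h ρ (Multiset.mem_cons_of_mem hρ))

lemma logDeriv_Qp (M : Multiset ℂ) (z : ℂ) (h : ∀ ρ ∈ M, z ≠ ρ) :
    logDeriv (Qp M) z = (M.map (fun ρ => 1 / (z - ρ))).sum := by
  induction M using Multiset.induction_on with
  | empty =>
    have : Qp 0 = fun _ => 1 := funext Qp_zero
    rw [this]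
    simp [logDeriv_apply]
  | cons a M ih =>
    have : Qp (a ::ₘ M) = fun z => (z - a) * Qp M z := funext (Qp_cons a M)
    have h1 := h a (Multiset.mem_cons_self a M)
    have h2 : ∀ ρ ∈ M, z ≠ ρ := fun ρ hρ => h ρ (Multiset.mem_cons_of_mem hρ)
    rw [this, logDeriv_mul (f := fun z => z - a) (g := Qp M) z (sub_ne_zero.2 h1)
      (Qp_ne_zero M z h2) ((differentiable_id.sub_const a) z) (Qp_differentiable M z), ih h2,
      Multiset.map_cons, Multiset.sum_cons]
    congr 1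
    rw [logDeriv_apply]
    have h3 : HasDerivAt (fun z : ℂ => z - a) 1 z := (hasDerivAt_id z).sub_const a
    rw [h3.deriv]

lemma logDeriv_EZ {s : ℂ} (hs : 1 < s.re) :
    logDeriv EZ s = 1 / (s - 1) - LSeries (fun n => (ArithmeticFunction.vonMangoldt n : ℂ)) s := by
  have hs1 : s ≠ 1 := by
    rintro rfl
    simp at hs
  have hz : riemannZeta s ≠ 0 := riemannZeta_ne_zero_of_one_lt_re hs
  have h1 : EZ =ᶠ[𝓝 s] fun z => (z - 1) * riemannZeta z := by
    filter_upwards [isOpen_compl_singleton.mem_nhds (show s ∈ ({1} : Set ℂ)ᶜ from hs1)] with z hz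
    exact EZ_eq hz
  have h2 : logDeriv EZ s = logDeriv (fun z => (z - 1) * riemannZeta z) s := by
    rw [logDeriv_apply, logDeriv_apply, h1.deriv_eq, h1.eq_of_nhds]
  rw [h2, logDeriv_mul (f := fun z => z - 1) (g := riemannZeta) s (sub_ne_zero.2 hs1) hz
    ((differentiable_id.sub_const 1) s) (differentiableAt_riemannZeta hs1)]
  have h3 : HasDerivAt (fun z : ℂ => z - 1) 1 s := (hasDerivAt_id s).sub_const 1
  have h4 : logDeriv (fun z : ℂ => z - 1) s = 1 / (s - 1) := by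
    rw [logDeriv_apply, h3.deriv]
  have h5 : logDeriv riemannZeta s =
      -LSeries (fun n => (ArithmeticFunction.vonMangoldt n : ℂ)) s := by
    rw [ArithmeticFunction.LSeries_vonMangoldt_eq_deriv_riemannZeta_div hs, logDeriv_apply]
    ring
  rw [h4, h5]
  ring

/-- bound of the logarithmic derivative through Borel-Caratheodory and Cauchy -/
lemma logDeriv_bound {H : ℂ → ℂ} {R r₂ r₁ Mt : ℝ} (hr₁ : 0 < r₁) (h12 : r₁ < r₂) (h2R : r₂ < R)
    (hMt : 0 < Mt) (hH : DifferentiableOn ℂ H (ball 0 R)) (hne : ∀ z ∈ ball (0 : ℂ) R, H z ≠ 0)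
    (h0 : H 0 = 1) (hb : ∀ z ∈ ball (0 : ℂ) R, ‖H z‖ ≤ Real.exp Mt) {w : ℂ} (hw : ‖w‖ ≤ r₁) :
    ‖deriv H w / H w‖ ≤ 2 * Mt * r₂ / (R - r₂) / (r₂ - r₁) := by
  have hR : 0 < R := by linarith
  obtain ⟨g, hgd, hgexp, hg0⟩ := Pool.Agent.Helper55.MZ.exists_log hR hH hne
  rw [h0, Complex.log_one] at hg0
  have hmaps : Set.MapsTo g (ball 0 R) {z | z.re ≤ Mt} := by
    intro z hz
    have h1 := hb z hz
    rw [← hgexp z hz, Complex.norm_exp, Real.exp_le_exp] at h1
    exact h1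
  have hbound : ∀ z : ℂ, ‖z‖ ≤ r₂ → ‖g z‖ ≤ 2 * Mt * r₂ / (R - r₂) := by
    intro z hz
    have hzR : z ∈ ball (0 : ℂ) R := by
      rw [mem_ball_zero_iff]; linarith
    have h1 := Complex.borelCaratheodory hMt hgd hmaps hR hzR
    rw [hg0, norm_zero, zero_mul, zero_div, add_zero] at h1
    refine h1.trans ?_
    have hz0 := norm_nonneg z
    have h2 : 2 * Mt * ‖z‖ ≤ 2 * Mt * r₂ := by nlinarith
    have h3 : R - r₂ ≤ R - ‖z‖ := by linarith
    have h4 : 0 < R - r₂ := by linarith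
    have h5 : 0 < r₂ := by linarith
    exact div_le_div₀ (by positivity) h2 h4 h3
  have hwR : w ∈ ball (0 : ℂ) R := by
    rw [mem_ball_zero_iff]; linarith
  have hder : deriv g w = deriv H w / H w := by
    have h1 : H =ᶠ[𝓝 w] fun z => cexp (g z) := by
      filter_upwards [isOpen_ball.mem_nhds hwR] with z hz
      exact (hgexp z hz).symm
    have h2 : HasDerivAt g (deriv g w) w :=
      (hgd.differentiableAt (isOpen_ball.mem_nhds hwR)).hasDerivAt
    rw [h1.deriv_eq, h2.cexp.deriv, ← hgexp w hwR, mul_div_assoc, mul_comm, div_mul_cancel₀]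
    exact Complex.exp_ne_zero _
  rw [← hder]
  have hsub : closedBall w (r₂ - r₁) ⊆ ball (0 : ℂ) R := by
    intro z hz
    rw [mem_closedBall, dist_eq_norm] at hz
    rw [mem_ball_zero_iff]
    have : ‖z‖ ≤ ‖z - w‖ + ‖w‖ := by
      have := norm_add_le (z - w) w
      rwa [sub_add_cancel] at this
    linarith
  refine Complex.norm_deriv_le_of_forall_mem_sphere_norm_le (by linarith)
    (DifferentiableOn.diffContOnCl ?_) fun z hz => hbound z ?_
  · rw [closure_ball w (by linarith : r₂ - r₁ ≠ 0)]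
    exact hgd.mono hsub
  · rw [mem_sphere, dist_eq_norm] at hz
    have : ‖z‖ ≤ ‖z - w‖ + ‖w‖ := by
      have := norm_add_le (z - w) w
      rwa [sub_add_cancel] at this
    linarith

/-- the crucial growth estimate on discs around `2 + it` -/
lemma ratio_bound {σ₀ τ : ℝ} (h12 : 1 / 2 ≤ σ₀) (hτ : σ₀ < τ) (hτ1 : τ < 1) (M : Multiset ℂ)
    (Z : ℂ → ℂ) (hZ0 : ∀ z : ℂ, σ₀ < z.re → Z z ≠ 0)
    (hEZ : ∀ z, EZ z = Qp M z * Z z) : ∃ (A T₀ : ℝ), 0 < A ∧ 0 ≤ T₀ ∧ ∀ t : ℝ, T₀ ≤ |t| →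
      ∀ w ∈ ball (0 : ℂ) (2 - τ), ‖Z (2 + t * I + w) / Z (2 + t * I)‖ ≤
        Real.exp (A * Real.log (2 + |t|)) := by
  obtain ⟨B, hB, hBM⟩ := exists_root_bound M
  obtain ⟨C, hC0, hC⟩ := EZ_bound
  set D : ℕ := Multiset.card M with hD
  set K : ℝ := 27 * C * (2 + B) ^ D with hK
  have hK0 : 0 < K := by positivity
  have hlog2 : 0 < Real.log 2 := Real.log_pos (by norm_num)
  refine ⟨|Real.log K| / Real.log 2 + 2 + D, B + 4, by positivity, by linarith, ?_⟩
  intro t ht w hw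
  rw [mem_ball_zero_iff] at hw
  set s0 : ℂ := 2 + t * I with hs0
  have hs0re : s0.re = 2 := by simp [hs0]
  have hs0im : s0.im = t := by simp [hs0]
  have hwre := (abs_le.1 (Complex.abs_re_le_norm w))
  have hwim := (abs_le.1 (Complex.abs_im_le_norm w))
  have hsre : τ < (s0 + w).re := by
    rw [Complex.add_re, hs0re]
    linarith [hwre.1]
  have ht0 : 0 ≤ |t| := abs_nonneg t
  -- upper bound of Z (s0 + w)
  have hnorm0 : ‖s0‖ ≤ 2 + |t| := by
    rw [hs0]
    refine (norm_add_le _ _).trans ?_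
    rw [norm_mul, Complex.norm_I, mul_one, Complex.norm_real, Real.norm_eq_abs, Complex.norm_ofNat]
  have hnorm1 : ‖s0 + w‖ ≤ 2 + |t| + 3 / 2 := by
    refine (norm_add_le _ _).trans ?_
    linarith
  have hQ1 : 1 ≤ ‖Qp M (s0 + w)‖ := by
    refine Qp_lower M _ fun ρ hρ => ?_
    have h1 := Complex.abs_im_le_norm (s0 + w - ρ)
    have h2 : |(s0 + w - ρ).im| ≥ |t| - |w.im| - |ρ.im| := by
      rw [Complex.sub_im, Complex.add_im, hs0im]
      have h3 : |t| ≤ |t + w.im - ρ.im| + |w.im| + |ρ.im| := by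
        have h4 : t = (t + w.im - ρ.im) + (-w.im) + ρ.im := by ring
        calc |t| = |(t + w.im - ρ.im) + (-w.im) + ρ.im| := by rw [← h4]
          _ ≤ |(t + w.im - ρ.im) + (-w.im)| + |ρ.im| := abs_add_le _ _
          _ ≤ |t + w.im - ρ.im| + |-w.im| + |ρ.im| := by
            gcongr
            exact abs_add_le _ _
          _ = _ := by rw [abs_neg]
      linarith
    have h5 := (Complex.abs_im_le_norm ρ).trans (hBM ρ hρ)
    have h6 := Complex.abs_im_le_norm w
    linarith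
  have hZ1 : ‖Z (s0 + w)‖ ≤ 9 * C * (2 + |t|) ^ 2 := by
    have h1 : ‖EZ (s0 + w)‖ = ‖Qp M (s0 + w)‖ * ‖Z (s0 + w)‖ := by rw [hEZ, norm_mul]
    have h2 := hC (s0 + w) (by linarith)
    have h3 : ‖Z (s0 + w)‖ ≤ ‖EZ (s0 + w)‖ := by
      rw [h1]
      exact le_mul_of_one_le_left (norm_nonneg _) hQ1
    have h4 : (1 + ‖s0 + w‖) ^ 2 ≤ (3 * (2 + |t|)) ^ 2 := by
      refine pow_le_pow_left₀ (by positivity) ?_ 2
      linarith
    calc ‖Z (s0 + w)‖ ≤ C * (1 + ‖s0 + w‖) ^ 2 := h3.trans h2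
      _ ≤ C * (3 * (2 + |t|)) ^ 2 := by gcongr
      _ = 9 * C * (2 + |t|) ^ 2 := by ring
  -- lower bound of Z s0
  have hQ0 : ‖Qp M s0‖ ≤ ((2 + B) * (2 + |t|)) ^ D := by
    refine Qp_upper M s0 _ (by positivity) fun ρ hρ => ?_
    refine (norm_sub_le _ _).trans ?_
    have := hBM ρ hρ
    nlinarith
  have hs01 : s0 ≠ 1 := by
    intro h
    have := congrArg Complex.re h
    rw [hs0re] at this
    norm_num at this
  have hEZ0 : 1 / 3 ≤ ‖EZ s0‖ := by
    rw [EZ_eq hs01, norm_mul]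
    have h1 := zeta_two_line hs0re
    have h2 : 1 ≤ ‖s0 - 1‖ := by
      have := Complex.re_le_norm (s0 - 1)
      rw [Complex.sub_re, hs0re, Complex.one_re] at this
      linarith
    nlinarith [norm_nonneg (riemannZeta s0)]
  have hZs0 : Z s0 ≠ 0 := hZ0 s0 (by rw [hs0re]; linarith)
  have hZpos : 0 < ‖Z s0‖ := norm_pos_iff.2 hZs0
  have hZlow : 1 / 3 ≤ ((2 + B) * (2 + |t|)) ^ D * ‖Z s0‖ := by
    refine hEZ0.trans ?_
    rw [hEZ, norm_mul]
    exact mul_le_mul_of_nonneg_right hQ0 (norm_nonneg _)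
  have hfin : ‖Z (s0 + w) / Z s0‖ ≤ K * (2 + |t|) ^ (2 + D) := by
    rw [norm_div, div_le_iff₀ hZpos]
    calc ‖Z (s0 + w)‖ ≤ 9 * C * (2 + |t|) ^ 2 := hZ1
      _ = 27 * C * (2 + |t|) ^ 2 * (1 / 3) := by ring
      _ ≤ 27 * C * (2 + |t|) ^ 2 * (((2 + B) * (2 + |t|)) ^ D * ‖Z s0‖) := by gcongr
      _ = K * (2 + |t|) ^ (2 + D) * ‖Z s0‖ := by
        rw [hK, mul_pow, pow_add]
        ring
  refine hfin.trans ?_
  have hpos : 0 < 2 + |t| := by linarith
  have hlogt : Real.log 2 ≤ Real.log (2 + |t|) := Real.log_le_log (by norm_num) (by linarith)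
  rw [← Real.log_le_iff_le_exp (by positivity), Real.log_mul hK0.ne' (by positivity), Real.log_pow]
  push_cast
  have h1 : Real.log K ≤ |Real.log K| / Real.log 2 * Real.log (2 + |t|) := by
    calc Real.log K ≤ |Real.log K| := le_abs_self _
      _ = |Real.log K| / Real.log 2 * Real.log 2 := by field_simp
      _ ≤ _ := by gcongr
  nlinarith

theorem existsG_of_factor : ExistsG := by
  intro σ₀ h12 hσ hfin
  set U : Set ℂ := {s | σ₀ < s.re} with hU
  have hUo : IsOpen U := isOpen_lt continuous_const Complex.continuous_re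
  have hUc : IsPreconnected U := (convex_halfSpace_re_gt σ₀).isPreconnected
  have hzero : ∀ z : ℂ, EZ z = 0 → riemannZeta z = 0 := by
    intro z hz
    have h1 : z ≠ 1 := by
      rintro rfl
      rw [EZ_one] at hz
      exact one_ne_zero hz
    rw [EZ_eq h1] at hz
    exact (mul_eq_zero.1 hz).resolve_left (sub_ne_zero.2 h1)
  obtain ⟨M, Z, hZ, hZ0, hM, hfac⟩ := factorFinite EZ EZ_differentiable U hUo hUc
    ⟨1, by simpa [hU] using hσ, by rw [EZ_one]; exact one_ne_zero⟩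
    (hfin.subset fun z hz => ⟨hzero z hz.2, hz.1⟩)
  have hMre : ∀ ρ ∈ M, ρ.re < 1 := by
    intro ρ hρ
    by_contra h
    push Not at h
    exact riemannZeta_ne_zero_of_one_le_re h (hzero ρ (hM ρ hρ).2)
  have hdZ : Differentiable ℂ (deriv Z) := by
    have h1 := hZ.differentiableOn.deriv isOpen_univ
    rwa [differentiableOn_univ] at h1
  have hGd : DifferentiableOn ℂ (fun s => -(deriv Z s / Z s)) U :=
    (hdZ.differentiableOn.div hZ.differentiableOn hZ0).neg
  refine ⟨M, fun s => -(deriv Z s / Z s), ⟨fun ρ hρ => ⟨(hM ρ hρ).1, hMre ρ hρ⟩, hGd, ?_, ?_⟩⟩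
  · intro s hs
    have hsM : ∀ ρ ∈ M, s ≠ ρ := by
      rintro ρ hρ rfl
      have := hMre s hρ
      linarith
    have h1 : logDeriv EZ s = logDeriv (Qp M) s + logDeriv Z s := by
      have h2 : EZ = fun z => Qp M z * Z z := funext hfac
      rw [h2, logDeriv_mul s (Qp_ne_zero M s hsM) (hZ0 s (by show σ₀ < s.re; linarith))
        (Qp_differentiable M s) (hZ s)]
    rw [logDeriv_EZ hs, logDeriv_Qp M s hsM, logDeriv_apply] at h1
    have h3 : deriv Z s / Z s = 1 / (s - 1) -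
        LSeries (fun n => (ArithmeticFunction.vonMangoldt n : ℂ)) s -
        (M.map (fun ρ => 1 / (s - ρ))).sum := by
      rw [h1]
      ring
    show -(deriv Z s / Z s) = _
    rw [h3]
    ring
  · intro σ₁ hσ₁
    set σ : ℝ := min σ₁ ((σ₀ + 1) / 2) with hσdef
    have hσ0 : σ₀ < σ := lt_min hσ₁ (by linarith)
    have hσ1 : σ < 1 := (min_le_right _ _).trans_lt (by linarith)
    have hσσ : σ ≤ σ₁ := min_le_left _ _
    set τ : ℝ := (σ₀ + σ) / 2 with hτ
    have hτ0 : σ₀ < τ := by rw [hτ]; linarith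
    have hτ1 : τ < σ := by rw [hτ]; linarith
    obtain ⟨A, T₀, hA, hT₀, hratio⟩ := ratio_bound h12 hτ0 (by linarith) M Z hZ0 hfac
    set r₂ : ℝ := ((2 - τ) + (2 - σ)) / 2 with hr₂
    have hr12 : 2 - σ < r₂ := by rw [hr₂]; linarith
    have hr2R : r₂ < 2 - τ := by rw [hr₂]; linarith
    set C₂ : ℝ := 2 * A * r₂ / (2 - τ - r₂) / (r₂ - (2 - σ)) with hC₂
    have hC₂0 : 0 ≤ C₂ := by
      have h1 : 0 < r₂ := by linarith
      have h2 : 0 < 2 - τ - r₂ := by linarith
      have h3 : 0 < r₂ - (2 - σ) := by linarith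
      positivity
    -- the compact part
    have hcomp : IsCompact ((fun p : ℝ × ℝ => (p.1 : ℂ) + p.2 * I) ''
        (Set.Icc σ 2 ×ˢ Set.Icc (-T₀) T₀)) := by
      refine (isCompact_Icc.prod isCompact_Icc).image ?_
      fun_prop
    have hsubU : ((fun p : ℝ × ℝ => (p.1 : ℂ) + p.2 * I) ''
        (Set.Icc σ 2 ×ˢ Set.Icc (-T₀) T₀)) ⊆ U := by
      rintro z ⟨p, hp, rfl⟩
      show σ₀ < _
      simp only [Complex.add_re, Complex.ofReal_re, Complex.mul_re, Complex.I_re, mul_zero,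
        Complex.ofReal_im, Complex.I_im, mul_one, sub_self, add_zero]
      linarith [hp.1.1]
    obtain ⟨C₁, hC₁⟩ := hcomp.exists_bound_of_continuousOn (hGd.continuousOn.mono hsubU)
    have hlog2 : 0 < Real.log 2 := Real.log_pos (by norm_num)
    refine ⟨max (|C₁| / Real.log 2) C₂, fun s h1 h2 => ?_⟩
    have hlogt : Real.log 2 ≤ Real.log (2 + |s.im|) :=
      Real.log_le_log (by norm_num) (by linarith [abs_nonneg s.im])
    by_cases hT : |s.im| ≤ T₀
    · have h3 := hC₁ s ⟨(s.re, s.im), ⟨⟨by linarith, h2⟩, abs_le.1 hT⟩, Complex.re_add_im s⟩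
      calc ‖-(deriv Z s / Z s)‖ ≤ |C₁| := h3.trans (le_abs_self _)
        _ = |C₁| / Real.log 2 * Real.log 2 := by field_simp
        _ ≤ |C₁| / Real.log 2 * Real.log (2 + |s.im|) := by gcongr
        _ ≤ _ := mul_le_mul_of_nonneg_right (le_max_left _ _) (by linarith)
    · push Not at hT
      set t : ℝ := s.im with ht
      set s0 : ℂ := 2 + t * I with hs0
      have hs0U : ∀ w ∈ ball (0 : ℂ) (2 - τ), s0 + w ∈ U := by
        intro w hw
        rw [mem_ball_zero_iff] at hw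
        show σ₀ < (s0 + w).re
        have hwre := (abs_le.1 (Complex.abs_re_le_norm w))
        have : s0.re = 2 := by simp [hs0]
        rw [Complex.add_re, this]
        linarith [hwre.1]
      have h0ball : (0 : ℂ) ∈ ball (0 : ℂ) (2 - τ) := mem_ball_self (by linarith)
      have hZs0 : Z s0 ≠ 0 := by
        have := hZ0 _ (hs0U 0 h0ball)
        rwa [add_zero] at this
      have hpos : 0 < Real.log (2 + |t|) := by linarith
      set w : ℂ := ((s.re - 2 : ℝ) : ℂ) with hw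
      have hsw : s0 + w = s := by
        apply Complex.ext
        · simp [hs0, hw]
        · simp [hs0, hw, ht]
      have hwn : ‖w‖ ≤ 2 - σ := by
        rw [hw, Complex.norm_real, Real.norm_eq_abs, abs_le]
        constructor <;> linarith
      have hbd := logDeriv_bound (H := fun w => Z (s0 + w) / Z s0) (R := 2 - τ) (r₂ := r₂)
        (r₁ := 2 - σ) (Mt := A * Real.log (2 + |t|)) (by linarith) hr12 hr2R (by positivity)
        ((hZ.comp (differentiable_const s0 |>.add differentiable_id)).div_const _).differentiableOn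
        (fun z hz => div_ne_zero (hZ0 _ (hs0U z hz)) hZs0) (by simp [hZs0])
        (fun z hz => hratio t hT.le z hz) hwn
      have hderiv : deriv (fun w => Z (s0 + w) / Z s0) w = deriv Z (s0 + w) / Z s0 := by
        have h4 : HasDerivAt (fun w => Z (s0 + w)) (deriv Z (s0 + w)) w := by
          have h5 := (hZ (s0 + w)).hasDerivAt
          exact h5.comp_const_add s0 w
        exact (h4.div_const _).deriv
      rw [hderiv, hsw] at hbd
      have h6 : deriv Z s / Z s0 / (Z s / Z s0) = deriv Z s / Z s := by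
        have := hZ0 s (by show σ₀ < s.re; linarith)
        field_simp
      rw [h6] at hbd
      rw [norm_neg]
      refine hbd.trans ?_
      have h7 : 2 * (A * Real.log (2 + |t|)) * r₂ / (2 - τ - r₂) / (r₂ - (2 - σ)) =
          C₂ * Real.log (2 + |t|) := by
        rw [hC₂]
        ring
      rw [h7]
      exact mul_le_mul_of_nonneg_right (le_max_right _ _) hpos.le

theorem existsG (_h0 : ZetaGrowth) (_h1 : FactorFinite) : ExistsG := existsG_of_factor

end Pool.Agent.Helper69.QRH
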